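import Mathlib
import Pool.Agent.BOR.FIN

namespace Pool.Agent.Results.MP_f235b7_gt.SimilarCopies

/-- There is a tame unknot `K` in three-space (the image of the unit circle under a homeomorphism of
three-space), which is not a round circle, such that no three pairwise disjoint similar copies
`g 0 '' K`, `g 1 '' K`, `g 2 '' K` of it form the Borromean rings, not even up to a homeomorphism
of three-space and up to the order of the components. -/
theorem result : ∃ K : Set BOR.E3, BOR.IsUnknot K ∧ ¬ BOR.IsCircle K ∧
    ∀ g : Fin 3 → BOR.Sim,
      (∀ i j, i ≠ j → Disjoint ((g i).app '' K) ((g j).app '' K)) →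
      ¬ BOR.IsBorromean (fun i => (g i).app '' K) :=
  BOR.main

end Pool.Agent.Results.MP_f235b7_gt.SimilarCopies
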